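import Pool.Agent.E8helper97.EE.Core

/-!
# No anomalous dissipation if the growth rate of perturbations is integrable over a set of times
which is not too thin before each singular time

Let `u` be a weak solution of the Navier-Stokes equations with the viscosity `ν` in an arbitrary
open set `Ω ⊆ ℝ³`. For a time `t` and a number `κ > 0`, which may be much larger than `ν`, consider
the maximal growth rate of the energy of a perturbation of `u(t)` at the viscosity `κ`,
`Λ(t) = sup (-∫ φ·(φ·∇)u(t) - κ ∫ |∇φ|²) / ∫ |φ|²` over all divergence free test fields `φ`.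

Suppose that `Λ⁺` is integrable near all times outside a null set `N`, and that it is integrable
over a set `A` of times which has a positive lower density from the left at each time in `N`
(nothing is assumed about the other times near `N`). Then the energy defect is nonincreasing:
there is no anomalous dissipation. So the energy equality holds on `[0,T]` if the energy
inequality holds at the time `T`.

For a Leray-Hopf solution in a smooth bounded domain one can take for `N` the null set of the
singular times. With `N = ∅` the condition is `∫₀ᵀ Λ⁺ < ∞`.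

The viscosity `κ` may also depend on time.
-/

set_option autoImplicit false

open MeasureTheory Set
open scoped InnerProductSpace ENNReal ContDiff

namespace Pool.Agent.Results.MP_a38b17_an.GrowthRateH97

open H772R2.NS.Pub Pool.Agent.E8helper97.EE

/-- Let `u` be a weak solution of the Navier-Stokes equations in an open set `Ω ⊆ ℝ³` with the
gradient `G` and the force `f` (no energy inequality is assumed). Suppose that for almost every
`t ∈ (0,T)`, in the flow `u(t)` and at the viscosity `κ(t)`, the energy of a perturbation grows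
at most at the rate `β(t) ≥ 0` (see `GrowthLe`), where `κ(s) ‖∇u(t)‖² ≤ β(s) + g(t)` for almost all
`s < t`, for some function `g` integrable on `(0,T)` (if `κ` is a constant, `g = κ ‖∇u‖²`
will do). Let `N` be a null set of times, such that `β` is integrable near all times outside `N`,
and let `A` be a measurable set of times, such that `β` is integrable over `A`, and `A` has
a positive lower density from the left at each `t ∈ N`, `0 < t ≤ T`. Then the energy defect is
nonincreasing on `[0,T]`, and if it is nonnegative at `T`, then the energy equality holds on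
`[0,T]`. -/
theorem result {Ω : Set R3} (hΩ : IsOpen Ω) {ν T : ℝ} (hν : 0 < ν) (hT : 0 < T)
    {u : ℝ → L2 Ω R3} {G : ℝ → L2 Ω Mat} {f : ℝ → L2 Ω R3} (hu : IsWeakSolution Ω ν T u G f)
    {κ β g : ℝ → ℝ} (hβ : ∀ t, 0 ≤ β t) (hg : IntegrableOn g (Ioo 0 T))
    (hgrowth : ∀ᵐ t ∂(volume.restrict (Ioo 0 T)), GrowthLe (κ t) (β t) (G t))
    (hκ : ∀ᵐ s ∂(volume.restrict (Ioo 0 T)), ∀ᵐ t ∂(volume.restrict (Ioo 0 T)), s < t →
      κ s * ‖G t‖ ^ 2 ≤ β s + g t)
    {N A : Set ℝ} (hN : volume N = 0) (hA : MeasurableSet A)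
    (hβN : ∀ t ∈ Icc 0 T, t ∉ N → ∃ δ > 0, IntegrableOn β (Ioo (t - δ) (t + δ) ∩ Ioo 0 T))
    (hβA : IntegrableOn β (A ∩ Ioo 0 T))
    (hAN : ∀ t ∈ N, 0 < t → t ≤ T → ∃ c > 0, ∃ δ > 0, ∀ h ∈ Ioo 0 δ,
      c * h ≤ (volume (A ∩ Ioo (t - h) t)).toReal) :
    (∀ s t, 0 ≤ s → s ≤ t → t ≤ T → energyDefect ν u G f t ≤ energyDefect ν u G f s) ∧
    (0 ≤ energyDefect ν u G f T → ∀ t ∈ Icc 0 T, energyDefect ν u G f t = 0) := by
  have h := toNS hu
  obtain ⟨M, hM⟩ := h.bdd
  have hM0 : 0 ≤ M := (norm_nonneg _).trans (hM 0 ⟨le_rfl, hT.le⟩)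
  have hc : 0 < 1 + M ^ 2 + 1 := by positivity
  set β' : ℝ → ℝ := fun t => (1 + M ^ 2) * β t with hβ'
  have key := defect_anti (Ω := (Ω : Set H772R2.NS.E3)) hΩ hν.le hT h hg (β := β')
    (fun t => by have := hβ t; positivity) (by
      have hgr : ∀ᵐ t ∂(volume.restrict (Ioo 0 T)), (u t, G t) ∈ H1graph Ω := hu.grad
      have hGm : ∀ᵐ t ∂(volume.restrict (Ioo 0 T)), t ∈ Ioo 0 T :=
        ae_restrict_mem measurableSet_Ioo
      filter_upwards [hgrowth, hκ] with s h1 h2
      filter_upwards [h2, hgr, hGm] with t h3 h4 h5 hst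
      have h6 := growth_all hΩ h1 (mem_pub.mpr h4)
      have h7 := h3 hst
      have h8 : ‖u t‖ ^ 2 ≤ M ^ 2 :=
        pow_le_pow_left₀ (norm_nonneg _) (hM t (Ioo_subset_Icc_self h5)) 2
      have h9 : β s * ‖u t‖ ^ 2 ≤ β s * M ^ 2 := mul_le_mul_of_nonneg_left h8 (hβ s)
      simp only [hβ']
      refine h6.trans ?_
      have h10 : β s * ‖(show H772R2.NS.L2V (Ω : Set H772R2.NS.E3) from u t)‖ ^ 2
          ≤ β s * M ^ 2 := h9
      have h11 : κ s * ‖(show H772R2.NS.L2M (Ω : Set H772R2.NS.E3) from G t)‖ ^ 2
          ≤ β s + g t := h7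
      refine (add_le_add h11 h10).trans (le_of_eq ?_)
      ring) hN hA
    (fun t ht htN => by
      obtain ⟨δ, hδ, h1⟩ := hβN t ht htN
      exact ⟨δ, hδ, Integrable.const_mul h1 _⟩)
    (Integrable.const_mul hβA _) hAN
  have key' : ∀ s t, 0 ≤ s → s ≤ t → t ≤ T →
      energyDefect ν u G f t ≤ energyDefect ν u G f s := key
  refine ⟨key', fun hDT t ht => ?_⟩
  have h0 : energyDefect ν u G f 0 = 0 := by
    unfold energyDefect
    simp
  have h1 := key' 0 t le_rfl ht.1 ht.2
  have h2 := key' t T ht.1 ht.2 le_rfl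
  linarith

end Pool.Agent.Results.MP_a38b17_an.GrowthRateH97
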