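import Pool.Agent.E8helper68.UD.UD6
import Pool.Agent.TH340.FF.LH

/-!
# Energy equality for velocity fields nearly parallel to a field of directions

The energy equality holds for a weak solution `u` of the Navier-Stokes equations in an arbitrary
open set `Ω ⊆ ℝ³` (no energy inequality is assumed) if at almost every time `t` and in all balls
of radius `ρ(t)` with center in `Ω` the velocity has only one component which is not of Type I:
there is a vector field `d`, `|d| ≤ 1`, `|∇d| ≤ Λ(t)` (for instance a constant unit vector,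
`Λ = 0`), depending on the time and on the ball in an arbitrary way, such that the component
`v = u - (d·u) d` satisfies `|v|² ≤ K W + B(t)` with a form bounded potential `W`, or
`|v| ≤ K / |x - y| + √B(t)` for some point `y`. Here `K` is an arbitrary constant (not small
compared to the viscosity), `B + 1 / ρ² + Λ⁴` is an integrable function of time, and there is no
condition on the component of the velocity along `d`. At times with `‖u(t)‖⁴_{L⁴(Ω)} ≤ b(t)`, `b`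
integrable, no other condition is needed.
-/

set_option autoImplicit false

open MeasureTheory Set
open scoped InnerProductSpace ENNReal ContDiff

namespace Pool.Agent.Results.MP_a38b17_an.NearlyUnidirectionalH68

open H772R2.NS.Pub Pool.Agent.E8helper68.UD Pool.Agent.TH340.FF

/-- Let `u` be a weak solution of the Navier-Stokes equations in an open set `Ω ⊆ ℝ³`
(no energy inequality is assumed), with gradient `G` and force `f`. Let `K > 0` be a number, and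
let `B ≥ 0`, `ρ > 0`, `Λ ≥ 0`, `b ≥ 0` be functions of time such that `B + 1 / ρ² + Λ⁴` and `b`
are integrable on `(0,T)`. Suppose that for almost every `t ∈ (0,T)`
`NearlyParallelIn (Metric.ball x (ρ t)) K (B t) (Λ t) (u t)` holds for all `x ∈ Ω`, or
`‖u(t)‖⁴_{L⁴(Ω)} ≤ b(t)`. Then the energy equality holds: the energy defect is zero at all times in
`[0,T]`. -/
theorem result {Ω : Set R3} (hΩ : IsOpen Ω) {ν T K : ℝ}
    (hν : 0 < ν) (hT : 0 < T) (hK : 0 < K)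
    {u : ℝ → L2 Ω R3} {G : ℝ → L2 Ω Mat} {f : ℝ → L2 Ω R3} (hu : IsWeakSolution Ω ν T u G f)
    {B ρ Λ b : ℝ → ℝ} (hB : ∀ t, 0 ≤ B t) (hρ : ∀ t, 0 < ρ t) (hΛ : ∀ t, 0 ≤ Λ t)
    (hb : ∀ t, 0 ≤ b t)
    (hint : IntegrableOn (fun t => B t + 1 / ρ t ^ 2 + Λ t ^ 4) (Ioo 0 T))
    (hintb : IntegrableOn b (Ioo 0 T))
    (hyp : ∀ᵐ t ∂(volume.restrict (Ioo 0 T)),
      (∀ x ∈ Ω, NearlyParallelIn (Metric.ball x (ρ t)) K (B t) (Λ t) (u t)) ∨
      norm4 (u t) ^ 4 ≤ ENNReal.ofReal (b t)) :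
    ∀ t ∈ Icc 0 T, energyDefect ν u G f t = 0 := by
  have h := toNS hu
  obtain ⟨M, hM⟩ := h.bdd
  have hM0 : 0 ≤ M := (norm_nonneg _).trans (hM 0 ⟨le_rfl, hT.le⟩)
  have hC := Pool.Agent.R772.LI.C0_nonneg
  set k := K + 8 * K ^ 2 with hk
  have hk0 : 0 ≤ k := by positivity
  set N := (H772R2.NS.CS : ℝ) ^ 3 * M with hN
  have hN0 : 0 ≤ N := by positivity
  set κ := M ^ 2 * (8 + Pool.Agent.R772.LI.C0 * (8 + 32 * k)) + (7 * M) ^ 4 * N ^ 2 with hκ
  have hκ0 : 0 ≤ κ := by positivity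
  have hq : ∀ t, 0 ≤ B t + 1 / ρ t ^ 2 + Λ t ^ 4 := fun t => by
    have h1 := hB t
    have h2 := hρ t
    have h3 := hΛ t
    positivity
  have h1 : Integrable (fun t => B t + 1 / ρ t ^ 2 + Λ t ^ 4) (volume.restrict (Ioo 0 T)) := hint
  have h2 : Integrable b (volume.restrict (Ioo 0 T)) := hintb
  have hint4 : IntegrableOn (fun t => κ * (B t + 1 / ρ t ^ 2 + Λ t ^ 4) + b t)
      (Ioo 0 T) := (h1.const_mul κ).add h2
  refine energy_eq (Ω := (Ω : Set H772R2.NS.E3)) hΩ (a := 2 + 6 * k) hν.le hT (by positivity) h hM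
    (b := fun t => κ * (B t + 1 / ρ t ^ 2 + Λ t ^ 4) + b t)
    (fun t => by
      have a1 := hq t
      have a2 := hb t
      positivity)
    hint4 ?_
  filter_upwards [hyp, h.grad, ae_restrict_mem measurableSet_Ioo] with t ht hG htI p' hpW hpM
  have hW : (u t, G t) ∈ H772R2.NS.graphW (show Set H772R2.NS.E3 from Ω) :=
    H772R2.NS.mem_graphW.mpr hG
  have hm : MeasurableSet (show Set H772R2.NS.E3 from Ω) :=
    IsOpen.measurableSet (α := H772R2.NS.E3) hΩ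
  have hut := hM t (Ioo_subset_Icc_self htI)
  have a1 := hq t
  have a2 := hb t
  have a3 := hB t
  have a4 := hρ t
  have a5 := hΛ t
  have h5 : 0 ≤ ‖p'.2‖ ^ 2 := by positivity
  have h5' : 0 ≤ ‖(show H772R2.NS.L2M (show Set H772R2.NS.E3 from Ω) from G t)‖ ^ 2 := by
    positivity
  rcases ht with ht | ht
  · have key := ud_graph (Ω := (show Set H772R2.NS.E3 from Ω)) hm (κ := k) (β := 2 * B t)
      (Λ := Λ t) (ρ := ρ t) hk0 (by positivity) a5 a4 hW (fun x hx => nb_of hK.le a3 (ht x hx)) hpW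
    set y := ‖H772R2.NS.tensL (Ω := (show Set H772R2.NS.E3 from Ω)) (u t)‖ with hy
    set g := ‖(show H772R2.NS.L2M (show Set H772R2.NS.E3 from Ω) from G t)‖ with hg
    have hy0 : 0 ≤ y := norm_nonneg _
    have hg0 : 0 ≤ g := norm_nonneg _
    have hyg : y ^ 2 ≤ N * g ^ 3 := by
      have e1 := H772R2.NS.norm_tensL_sq_le hm hW
      refine le_trans e1 ?_
      have e2 : (H772R2.NS.CS : ℝ) ^ 3 * (‖(show H772R2.NS.L2V (show Set H772R2.NS.E3 from Ω)
          from u t)‖ * g ^ 3) ≤ (H772R2.NS.CS : ℝ) ^ 3 * (M * g ^ 3) := by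
        gcongr
      refine le_trans e2 (le_of_eq ?_)
      rw [hN]
      ring
    have e3 : 7 * Λ t * (y * ‖p'.1‖) ≤ g ^ 2 + (7 * Λ t * M) ^ 4 * N ^ 2 := by
      refine le_trans ?_ (young4 (A := 7 * Λ t * M) (by positivity) hN0 hy0 hg0 hyg)
      have : 7 * Λ t * (y * ‖p'.1‖) ≤ 7 * Λ t * (y * M) := by gcongr
      linarith
    have hu2 : ‖(show H772R2.NS.L2V (show Set H772R2.NS.E3 from Ω) from u t)‖ ^ 2 ≤ M ^ 2 :=
      pow_le_pow_left₀ (norm_nonneg _) hut 2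
    have hp2 : ‖p'.1‖ ^ 2 ≤ M ^ 2 := pow_le_pow_left₀ (norm_nonneg _) hpM 2
    have b1 : (2 * B t + 4 * Pool.Agent.R772.LI.C0 * (2 + 2 * k) / ρ t ^ 2)
        * ‖(show H772R2.NS.L2V (show Set H772R2.NS.E3 from Ω) from u t)‖ ^ 2
        ≤ (2 * B t + 4 * Pool.Agent.R772.LI.C0 * (2 + 2 * k) / ρ t ^ 2) * M ^ 2 := by
      gcongr
    have b2 : (3 * (2 * B t) + 24 * k * Pool.Agent.R772.LI.C0 / ρ t ^ 2) * ‖p'.1‖ ^ 2
        ≤ (3 * (2 * B t) + 24 * k * Pool.Agent.R772.LI.C0 / ρ t ^ 2) * M ^ 2 := by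
      gcongr
    have b3 : (2 * B t + 4 * Pool.Agent.R772.LI.C0 * (2 + 2 * k) / ρ t ^ 2) * M ^ 2
        + (3 * (2 * B t) + 24 * k * Pool.Agent.R772.LI.C0 / ρ t ^ 2) * M ^ 2
        + (7 * Λ t * M) ^ 4 * N ^ 2 ≤ κ * (B t + 1 / ρ t ^ 2 + Λ t ^ 4) := by
      have e1 : κ * (B t + 1 / ρ t ^ 2 + Λ t ^ 4)
          = ((2 * B t + 4 * Pool.Agent.R772.LI.C0 * (2 + 2 * k) / ρ t ^ 2) * M ^ 2
            + (3 * (2 * B t) + 24 * k * Pool.Agent.R772.LI.C0 / ρ t ^ 2) * M ^ 2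
            + (7 * Λ t * M) ^ 4 * N ^ 2)
            + (M ^ 2 * (Pool.Agent.R772.LI.C0 * (8 + 32 * k)) * (B t + Λ t ^ 4)
              + M ^ 2 * 8 * (1 / ρ t ^ 2 + Λ t ^ 4)
              + (7 * M) ^ 4 * N ^ 2 * (B t + 1 / ρ t ^ 2)) := by
        rw [hκ]
        ring
      have e2 : 0 ≤ M ^ 2 * (Pool.Agent.R772.LI.C0 * (8 + 32 * k)) * (B t + Λ t ^ 4)
              + M ^ 2 * 8 * (1 / ρ t ^ 2 + Λ t ^ 4)
              + (7 * M) ^ 4 * N ^ 2 * (B t + 1 / ρ t ^ 2) := by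
        positivity
      linarith only [e1, e2]
    have b4 : 0 ≤ k * g ^ 2 := by positivity
    have b5 : 0 ≤ k * ‖p'.2‖ ^ 2 := by positivity
    linarith only [key, b1, b2, b3, b4, b5, e3, h5, a2, sq_nonneg g]
  · have h1 := H772R2.NS.enorm_tensL hm hW
    have h2 : ‖H772R2.NS.tensL (Ω := (show Set H772R2.NS.E3 from Ω)) (u t)‖ ^ 2 ≤ b t := by
      have h3 : ‖H772R2.NS.tensL (Ω := (show Set H772R2.NS.E3 from Ω)) (u t)‖ₑ ^ 2
          ≤ ENNReal.ofReal (b t) := by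
        rw [h1, ← pow_mul]
        exact ht
      rw [← ofReal_norm, ← ENNReal.ofReal_pow (norm_nonneg _)] at h3
      exact (ENNReal.ofReal_le_ofReal_iff a2).1 h3
    have h4 := abs_real_inner_le_norm (H772R2.NS.tensL (Ω := (show Set H772R2.NS.E3 from Ω)) (u t))
      p'.2
    have h6 : ‖H772R2.NS.tensL (Ω := (show Set H772R2.NS.E3 from Ω)) (u t)‖ * ‖p'.2‖
        ≤ (‖H772R2.NS.tensL (Ω := (show Set H772R2.NS.E3 from Ω)) (u t)‖ ^ 2 + ‖p'.2‖ ^ 2) / 2 := by
      nlinarith [sq_nonneg (‖H772R2.NS.tensL (Ω := (show Set H772R2.NS.E3 from Ω)) (u t)‖ - ‖p'.2‖)]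
    have h7 : 0 ≤ (6 * k + 1) * ‖p'.2‖ ^ 2 := by positivity
    have h7' : 0 ≤ (2 + 6 * k)
      * ‖(show H772R2.NS.L2M (show Set H772R2.NS.E3 from Ω) from G t)‖ ^ 2 := by positivity
    have h8 : 0 ≤ κ * (B t + 1 / ρ t ^ 2 + Λ t ^ 4) := by positivity
    linarith

end Pool.Agent.Results.MP_a38b17_an.NearlyUnidirectionalH68
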